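import Mathlib

/-! Weakly Lindelöf spaces of cardinality less than the dominating number. -/

namespace Pool.Agent.Results.MP_ed8104_gt.Equiv

open Set Filter TopologicalSpace
open Cardinal hiding univ

/-- the dominating number -/
noncomputable def dnum : Cardinal.{0} :=
  sInf {c | ∃ D : Set (ℕ → ℕ), (∀ g : ℕ → ℕ, ∃ f ∈ D, ∀ᶠ n in atTop, g n ≤ f n) ∧ #D = c}

/-- open covers -/
def Cover {X : Type} [TopologicalSpace X] (𝒰 : Set (Set X)) : Prop :=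
  (∀ U ∈ 𝒰, IsOpen U) ∧ ⋃₀ 𝒰 = univ

/-- finite selections from a sequence of families -/
def Sel {X : Type} (𝒰 𝒱 : ℕ → Set (Set X)) : Prop := ∀ n, 𝒱 n ⊆ 𝒰 n ∧ (𝒱 n).Finite

def WeaklyLindelof (X : Type) [TopologicalSpace X] : Prop :=
  ∀ 𝒰 : Set (Set X), Cover 𝒰 → ∃ 𝒱 ⊆ 𝒰, 𝒱.Countable ∧ Dense (⋃₀ 𝒱)

def WeaklyMenger (X : Type) [TopologicalSpace X] : Prop :=
  ∀ 𝒰 : ℕ → Set (Set X), (∀ n, Cover (𝒰 n)) → ∃ 𝒱, Sel 𝒰 𝒱 ∧ Dense (⋃ n, ⋃₀ 𝒱 n)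

def WeaklyScheepersS (X : Type) [TopologicalSpace X] : Prop :=
  ∀ 𝒰 : ℕ → Set (Set X), (∀ n, Cover (𝒰 n)) → ∃ 𝒱, Sel 𝒰 𝒱 ∧
    ∀ F : Set (Set X), F.Finite → (∀ U ∈ F, IsOpen U ∧ U.Nonempty) →
      {n | ∀ U ∈ F, (U ∩ ⋃₀ 𝒱 n).Nonempty}.Infinite

def WeaklyScheepersK (X : Type) [TopologicalSpace X] : Prop :=
  ∀ 𝒰 : ℕ → Set (Set X), (∀ n, Cover (𝒰 n)) → ∃ Y : Set X, Dense Y ∧ ∃ 𝒱, Sel 𝒰 𝒱 ∧
    ∀ F ⊆ Y, F.Finite → {n | F ⊆ ⋃₀ 𝒱 n}.Infinite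

theorem KS {X : Type} [TopologicalSpace X] (h : WeaklyScheepersK X) : WeaklyScheepersS X := by
  intro 𝒰 hU
  obtain ⟨Y, hY, 𝒱, h1, h2⟩ := h 𝒰 hU
  refine ⟨𝒱, h1, fun F hF hF' => ?_⟩
  choose y hy using fun U : F => hY.inter_open_nonempty U (hF' U U.2).1 (hF' U U.2).2
  have := hF.to_subtype
  have h3 := h2 (range y) (by
    rintro _ ⟨U, rfl⟩
    exact (hy U).2) (finite_range y)
  refine h3.mono fun n hn U hU => ?_
  have hn' : range y ⊆ ⋃₀ 𝒱 n := hn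
  exact ⟨y ⟨U, hU⟩, (hy ⟨U, hU⟩).1, hn' ⟨_, rfl⟩⟩

theorem SM {X : Type} [TopologicalSpace X] (h : WeaklyScheepersS X) : WeaklyMenger X := by
  intro 𝒰 hU
  obtain ⟨𝒱, h1, h2⟩ := h 𝒰 hU
  refine ⟨𝒱, h1, dense_iff_inter_open.2 fun U hU hne => ?_⟩
  obtain ⟨n, hn⟩ := (h2 {U} (finite_singleton U) (by simpa using ⟨hU, hne⟩)).nonempty
  obtain ⟨x, h3, h4⟩ := hn U rfl
  exact ⟨x, h3, mem_iUnion.2 ⟨n, h4⟩⟩

theorem cK {X : Type} [TopologicalSpace X] [Countable X] : WeaklyScheepersK X := by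
  intro 𝒰 hU
  obtain ⟨e, he⟩ := Countable.exists_injective_nat X
  have h1 : ∀ n x, ∃ U ∈ 𝒰 n, x ∈ U := fun n x => mem_sUnion.1 ((hU n).2 ▸ mem_univ x)
  choose u h1 h2 using h1
  refine ⟨univ, dense_univ, fun n => u n '' (e ⁻¹' Iio n), fun n => ⟨?_, ?_⟩, fun F _ hF => ?_⟩
  · rintro _ ⟨x, -, rfl⟩
    exact h1 n x
  · exact ((finite_Iio n).preimage he.injOn).image _
  · obtain ⟨N, hN⟩ := (hF.image e).bddAbove
    refine (Ioi_infinite N).mono fun n hn x hx => ⟨u n x, ⟨x, ?_, rfl⟩, h2 n x⟩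
    exact lt_of_le_of_lt (hN ⟨x, hx, rfl⟩) hn

theorem le_dnum : ℵ₁ ≤ dnum := by
  refine le_csInf ⟨_, univ, fun g => ⟨g, trivial, Eventually.of_forall fun _ => le_rfl⟩, rfl⟩ ?_
  rintro _ ⟨D, hD, rfl⟩
  by_contra hn
  have hc : D.Countable := le_aleph0_iff_set_countable.1 (lt_aleph_one_iff.1 (not_le.1 hn))
  obtain ⟨f0, hf0, -⟩ := hD 0
  obtain ⟨f, rfl⟩ := hc.exists_eq_range ⟨f0, hf0⟩
  obtain ⟨_, ⟨k, rfl⟩, h⟩ := hD fun n => (Finset.range (n + 1)).sup (fun j => f j n) + 1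
  obtain ⟨n, h1, h2⟩ := (h.and (eventually_ge_atTop k)).exists
  have : f k n ≤ (Finset.range (n + 1)).sup fun j => f j n :=
    Finset.le_sup (f := fun j => f j n) (Finset.mem_range.2 (Nat.lt_succ_of_le h2))
  omega

abbrev W : Type := (ℵ₁ : Cardinal.{0}).out

theorem mkW : #W = ℵ₁ := mk_out _

instance : Uncountable W := aleph0_lt_mk_iff.1 (mkW ▸ aleph0_lt_aleph_one)

def X : Type := Finset (W × ℕ) × W

def mem (i : W × ℕ) (x : X) : Prop := i ∈ x.1 ∨ i.1 = x.2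

def Lf (S : Set (W × ℕ)) : Prop := ∀ n, {i ∈ S | i.2 = n}.Finite

def B (p S : Set (W × ℕ)) : Set X := {x | (∀ i ∈ p, mem i x) ∧ ∀ i ∈ S, ¬ mem i x}

theorem Lf.union {S T : Set (W × ℕ)} (h1 : Lf S) (h2 : Lf T) : Lf (S ∪ T) := fun n =>
  ((h1 n).union (h2 n)).subset fun _ hi => hi.1.imp (⟨·, hi.2⟩) (⟨·, hi.2⟩)

theorem B_union {p S q T : Set (W × ℕ)} {x : X} :
    x ∈ B (p ∪ q) (S ∪ T) ↔ x ∈ B p S ∧ x ∈ B q T :=
  ⟨fun h => ⟨⟨fun i hi => h.1 i (Or.inl hi), fun i hi => h.2 i (Or.inl hi)⟩,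
    ⟨fun i hi => h.1 i (Or.inr hi), fun i hi => h.2 i (Or.inr hi)⟩⟩,
    fun h => ⟨fun i hi => hi.elim (h.1.1 i) (h.2.1 i), fun i hi => hi.elim (h.1.2 i) (h.2.2 i)⟩⟩

instance : TopologicalSpace X where
  IsOpen O := ∀ x ∈ O, ∃ p S, p.Finite ∧ Lf S ∧ x ∈ B p S ∧ B p S ⊆ O
  isOpen_univ x _ := ⟨∅, ∅, finite_empty, fun n => by simp, ⟨by simp, by simp⟩, subset_univ _⟩
  isOpen_inter O O' h1 h2 x hx := by
    obtain ⟨p, S, a1, a2, a3, a4⟩ := h1 x hx.1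
    obtain ⟨q, T, b1, b2, b3, b4⟩ := h2 x hx.2
    exact ⟨p ∪ q, S ∪ T, a1.union b1, a2.union b2, B_union.2 ⟨a3, b3⟩, fun y hy =>
      ⟨a4 (B_union.1 hy).1, b4 (B_union.1 hy).2⟩⟩
  isOpen_sUnion s h x := by
    rintro ⟨O, hO, hx⟩
    obtain ⟨p, S, a1, a2, a3, a4⟩ := h O hO x hx
    exact ⟨p, S, a1, a2, a3, a4.trans (subset_sUnion_of_mem hO)⟩

theorem B_open {p S : Set (W × ℕ)} (hp : p.Finite) (hS : Lf S) : IsOpen (B p S) :=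
  fun _ hx => ⟨p, S, hp, hS, hx, subset_rfl⟩

theorem B_ne {p S : Set (W × ℕ)} (hp : p.Finite) (hS : Lf S) (h : ∀ i ∈ p, i ∉ S) :
    (B p S).Nonempty := by
  have hc : S.Countable := (countable_iUnion fun n => (hS n).countable).mono fun i hi =>
    mem_iUnion.2 ⟨i.2, And.intro hi rfl⟩
  obtain ⟨γ, hγ⟩ : ∃ γ, γ ∉ Prod.fst '' S := by
    by_contra hn
    push Not at hn
    exact not_countable_univ ((hc.image Prod.fst).mono fun γ _ => hn γ)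
  refine ⟨(hp.toFinset, γ), fun i hi => Or.inl (hp.mem_toFinset.2 hi), ?_⟩
  rintro i hi (h1 | h1)
  · exact h i (hp.mem_toFinset.1 h1) hi
  · exact hγ ⟨i, hi, h1⟩

theorem not_WM : ¬ WeaklyMenger X := fun h => by
  have hL : Lf ∅ := fun n => by simp
  obtain ⟨𝒱, h1, h2⟩ := h (fun n => range fun a : W => B {(a, n)} ∅) fun n =>
    ⟨by
      rintro _ ⟨a, rfl⟩
      exact B_open (finite_singleton _) hL,
    eq_univ_of_forall fun x => ⟨_, ⟨x.2, rfl⟩, fun i hi => Or.inr (by rw [hi]), by simp⟩⟩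
  have h0 : ∀ n U, U ∈ 𝒱 n → ∃ a : W, B {(a, n)} ∅ = U := fun n U hU => (h1 n).1 hU
  choose! a ha using h0
  let S : Set (W × ℕ) := {i | ∃ U ∈ 𝒱 i.2, a i.2 U = i.1}
  have hS : Lf S := fun n => by
    refine ((h1 n).2.image fun U => (a n U, n)).subset ?_
    rintro ⟨b, m⟩ ⟨⟨U, hU, h3⟩, rfl⟩
    exact ⟨U, hU, Prod.ext h3 rfl⟩
  obtain ⟨x, hx, h3⟩ := h2.inter_open_nonempty _ (B_open finite_empty hS)
    (B_ne finite_empty hS (by simp))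
  obtain ⟨n, U, hU, h4⟩ := mem_iUnion.1 h3
  rw [← ha n U hU] at h4
  exact hx.2 (a n U, n) ⟨U, hU, rfl⟩ (h4.1 _ rfl)

theorem WL : WeaklyLindelof X := by
  intro 𝒰 hU
  obtain ⟨ι⟩ : Nonempty (W × ℕ ↪ ℝ) := by
    rw [← Cardinal.le_def, mk_prod, mk_real]
    simp only [lift_id, mkW, mk_nat]
    exact (mul_le_mul' aleph_one_le_continuum aleph0_le_continuum).trans continuum_mul_self.le
  let Cl : ℕ × Set (Set ℝ) → Set (W × ℕ) → Set (W × ℕ) → Prop := fun c p S =>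
    p.Finite ∧ Lf S ∧ (∀ i ∈ p, i.2 < c.1 ∧ ι i ∈ ⋃₀ c.2) ∧ ∀ i ∈ S, i.2 < c.1 → ι i ∉ ⋃₀ c.2
  let C : Set (ℕ × Set (Set ℝ)) := {c | c.2 ∈ {t | t.Finite ∧ t ⊆ countableBasis ℝ} ∧
    ∃ U ∈ 𝒰, ∃ p S, Cl c p S ∧ B p S ⊆ U}
  have hC : C.Countable := ((countable_univ : (univ : Set ℕ).Countable).prod
    (countable_ofPred_finite_subset (countable_countableBasis ℝ))).mono fun c hc =>
      mem_prod.2 ⟨mem_univ _, hc.1⟩
  choose! u hu1 hu2 using fun c (hc : c ∈ C) => hc.2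
  refine ⟨u '' C, ?_, hC.image u, dense_iff_inter_open.2 ?_⟩
  · rintro _ ⟨c, hc, rfl⟩
    exact hu1 c hc
  rintro O hO ⟨x, hx⟩
  obtain ⟨U, hU1, hxU⟩ := mem_sUnion.1 (hU.2 ▸ mem_univ x)
  obtain ⟨p, S, a1, a2, a3, a4⟩ := (hO.inter (hU.1 U hU1)) x ⟨hx, hxU⟩
  obtain ⟨m, hm⟩ := (a1.image Prod.snd).bddAbove
  have hS' : {i ∈ S | i.2 < m + 1}.Finite :=
    ((finite_Iio (m + 1)).biUnion fun n _ => a2 n).subset fun i hi =>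
      mem_iUnion₂.2 ⟨i.2, hi.2, hi.1, rfl⟩
  have h1 : ∀ i ∈ p, ∃ v ∈ countableBasis ℝ, ι i ∈ v ∧ v ⊆ (ι '' {i ∈ S | i.2 < m + 1})ᶜ :=
    fun i hi => (isBasis_countableBasis ℝ).exists_subset_of_mem_open (by
      rintro ⟨j, hj, e⟩
      exact a3.2 j hj.1 (ι.injective e ▸ a3.1 i hi)) (hS'.image ι).isClosed.isOpen_compl
  choose! v h1 h2 h3 using h1
  have hcl : Cl (m + 1, v '' p) p S := by
    refine ⟨a1, a2, fun i hi => ⟨Nat.lt_succ_of_le (hm ⟨i, hi, rfl⟩), _, ⟨i, hi, rfl⟩, h2 i hi⟩, ?_⟩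
    rintro i hi h4 ⟨_, ⟨j, hj, rfl⟩, h5⟩
    exact h3 j hj h5 ⟨i, ⟨hi, h4⟩, rfl⟩
  have hc : (m + 1, v '' p) ∈ C := by
    refine ⟨⟨a1.image v, ?_⟩, U, hU1, p, S, hcl, a4.trans inter_subset_right⟩
    rintro _ ⟨i, hi, rfl⟩
    exact h1 i hi
  obtain ⟨q, T, b, b'⟩ := hu2 _ hc
  obtain ⟨y, hy⟩ := B_ne (a1.union b.1) (a2.union b.2.1) (by
    rintro i (h | h) (h' | h')
    · exact hcl.2.2.2 i h' (hcl.2.2.1 i h).1 (hcl.2.2.1 i h).2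
    · exact b.2.2.2 i h' (hcl.2.2.1 i h).1 (hcl.2.2.1 i h).2
    · exact hcl.2.2.2 i h' (b.2.2.1 i h).1 (b.2.2.1 i h).2
    · exact b.2.2.2 i h' (b.2.2.1 i h).1 (b.2.2.1 i h).2)
  exact ⟨y, (a4 (B_union.1 hy).1).1, _, ⟨_, hc, rfl⟩, b' (B_union.1 hy).2⟩

theorem mkX : #X = ℵ₁ := by
  change #(Finset (W × ℕ) × W) = ℵ₁
  simp

theorem result :
    ((∀ (X : Type) [TopologicalSpace X], WeaklyLindelof X → #X < dnum → WeaklyScheepersK X) ↔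
      dnum = ℵ₁) ∧
    ((∀ (X : Type) [TopologicalSpace X], WeaklyLindelof X → #X < dnum → WeaklyScheepersS X) ↔
      dnum = ℵ₁) ∧
    ((∀ (X : Type) [TopologicalSpace X], WeaklyLindelof X → #X < dnum → WeaklyMenger X) ↔
      dnum = ℵ₁) := by
  have h1 : (∀ (X : Type) [TopologicalSpace X], WeaklyLindelof X → #X < dnum → WeaklyMenger X) →
      dnum = ℵ₁ := fun h => by
    by_contra hn
    exact not_WM (h X WL (mkX ▸ lt_of_le_of_ne le_dnum (Ne.symm hn)))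
  have h2 : dnum = ℵ₁ → ∀ (X : Type) [TopologicalSpace X], #X < dnum → WeaklyScheepersK X :=
    fun h X _ hX => by
      have : Countable X := mk_le_aleph0_iff.1 (lt_aleph_one_iff.1 (h ▸ hX))
      exact cK
  exact ⟨⟨fun h => h1 fun X _ a b => SM (KS (h X a b)), fun h X _ _ b => h2 h X b⟩,
    ⟨fun h => h1 fun X _ a b => SM (h X a b), fun h X _ _ b => KS (h2 h X b)⟩,
    ⟨h1, fun h X _ _ b => SM (KS (h2 h X b))⟩⟩

end Pool.Agent.Results.MP_ed8104_gt.Equiv
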